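import Pool.Agent.Helper183.Gar.Mean
import Pool.Agent.Helper183.Gar.Walls
import Pool.Agent.Helper183.Gar.Slice
import Pool.Agent.Helper183.Gar.ExMatch
import Pool.Agent.Helper183.Gar.Rigid
import Pool.Agent.Helper183.Gar.PathF
import Pool.Agent.Helper183.Gar.Bdd
import Pool.Agent.Helper183.Gar.GAmen
import Pool.Agent.Helper183.Gar.PathA
import Pool.Agent.Helper183.Gar.ExPar
import Pool.Agent.Helper183.Gar.Polar
import Pool.Agent.Helper183.Gar.Pieces
import Pool.Agent.Helper183.Gar.Isol
import Pool.Agent.Helper183.Gar.NoMatch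
import Pool.Agent.Helper183.Gar.Equi
import Pool.Agent.Helper183.Gar.Final

set_option autoImplicit false
open MeasureTheory

namespace Pool.Agent.Results.MP_85f3a0_an.BorelPairDimThree

/-- three-dimensional Euclidean space -/
abbrev E3 := EuclideanSpace ℝ (Fin 3)

/-- the isometries of `ℝ³` (all bijective isometries) -/
abbrev Iso3 := E3 ≃ᵢ E3

/-- `A` is a bounded Borel set -/
def BoundedBorel (A : Set E3) : Prop := Bornology.IsBounded A ∧ MeasurableSet A

/-- `P` is Lebesgue measurable -/
def LebMeas (P : Set E3) : Prop := NullMeasurableSet P volume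

/-- the image of `P` under `g` -/
def img (g : Iso3) (P : Set E3) : Set E3 := ⇑g '' P

/-- all elements of `S` preserve the third coordinate -/
def KeepsHeight (S : Set Iso3) : Prop := ∀ g ∈ S, ∀ p : E3, (g p) 2 = p 2

/-- `m` is a finitely additive left-invariant probability measure on all subsets of `G` -/
def IsMean {G : Type} [Group G] (m : Set G → ℝ) : Prop :=
  (∀ S, 0 ≤ m S) ∧ m Set.univ = 1 ∧
    (∀ S T : Set G, Disjoint S T → m (S ∪ T) = m S + m T) ∧
    (∀ (g : G) (S : Set G), m ((fun h => g * h) '' S) = m S)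

/-- `P 0, ..., P (k-1)` are pairwise disjoint with union `A` -/
def Partitions {k : ℕ} (P : Fin k → Set E3) (A : Set E3) : Prop :=
  (⋃ i, P i) = A ∧ Pairwise (fun i j => Disjoint (P i) (P j))

/-- `A` and `B` are equidecomposable: `A` is the disjoint union of finitely many pieces `P i` with
the property `C`, and `B` is the disjoint union of their images under isometries `g i ∈ S` -/
def Equidec (C : Set E3 → Prop) (S : Set Iso3) (A B : Set E3) : Prop :=
  ∃ (k : ℕ) (P : Fin k → Set E3) (g : Fin k → Iso3),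
    (∀ i, C (P i)) ∧ (∀ i, g i ∈ S) ∧ Partitions P A ∧ Partitions (fun i => img (g i) (P i)) B

/-- There are bounded Borel sets `A`, `B` in `ℝ³` and an amenable group `G` of isometries of `ℝ³`,
all preserving the third coordinate, such that `A` and `B` are `G`-equidecomposable, but not
equidecomposable with Lebesgue measurable pieces and arbitrary isometries. -/
theorem result : ∃ (G : Subgroup Iso3) (A B : Set E3),
    BoundedBorel A ∧ BoundedBorel B ∧ KeepsHeight (G : Set Iso3) ∧
    (∃ m : Set G → ℝ, IsMean m) ∧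
    Equidec (fun _ => True) (G : Set Iso3) A B ∧
    ¬ Equidec LebMeas Set.univ A B := by
  obtain ⟨P⟩ : Nonempty Gardner.Par := by
    apply Gardner.exists_par
    · intro n i k l hn hk hl h
      exact Gardner.ypos_inj n i k l hn hk hl h
    · intro N η ε s hη hε hs
      exact Gardner.exists_walls N η ε s hη hε hs
  obtain ⟨N, g, hg, M, hM, hMg⟩ := Gardner.equi P Gardner.ypos_zero Gardner.ypos_step
    (fun h hh H0 H1 h0 h1 => Gardner.exists_matching h hh H0 H1 h0 h1)
  obtain ⟨Pc, h1, h2, h3, h4⟩ := Gardner.pieces N g M hM hMg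
  have hy : ∀ n i k : ℕ, |Gardner.ypos n i k| ≤ 2 := by
    intro n i k
    rw [abs_le]
    exact ⟨by linarith [Gardner.ypos_nonneg n i k], (Gardner.ypos_lt_two n i k).le⟩
  refine ⟨Gardner.GG, P.A, P.B, ⟨Gardner.bounded_A P hy, Gardner.meas_A P⟩,
    ⟨Gardner.bounded_B P hy, Gardner.meas_B P⟩, ?_, Gardner.GG_amenable,
    ⟨N, Pc, g, fun _ => trivial, hg, ⟨h1, h2⟩, ⟨h3, h4⟩⟩, ?_⟩
  · rintro _ ⟨c, δ, b, rfl⟩ p
    rw [Gardner.iso_apply]
    exact Gardner.zc_mk _ _
  rintro ⟨k, Q, g', m1, -, ⟨m2, m3⟩, ⟨m4, m5⟩⟩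
  refine Gardner.final P ?_ Gardner.ae_slice ?_ k Q g' m1 m2 m3 m4 m5
  · intro ι _ g
    exact Gardner.isolation P (fun c δ b h1 h2 => Gardner.exists_path (fun a b a' b' h => Gardner.row_inj a b a' b' h) c δ b h1 h2)
      Gardner.line_of_isometry Gardner.rigid g
  · intro h hh H0 H1 m0 m1 h0 h1 M hM B hf hme
    exact Gardner.no_measurable_matching h hh H0 H1 m0 m1 h0 h1 M hM B hf hme

end Pool.Agent.Results.MP_85f3a0_an.BorelPairDimThree
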